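import Pool.Agent.KS6_66.LM.Main

/-!
# MP_941809_an: maps of second order with degenerate differential are not light

The library (`RankOfEmbeddings`) proves for continuous maps whose weak differential is locally of
bounded variation (in particular for maps of class `W^{2,q}`, `q ≥ 1`, or `WBV`) that the differential
has full rank on a set of positive measure in every open set on which the map is *injective*. Here this
is proved for *light* maps (all fibres totally disconnected), with a sharper structure theorem:

if `rank Df ≤ k` almost everywhere on a nonempty open set `U ⊆ ℝⁿ`, then for every continuous map `g` of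
the same class (for example every smooth map) from `U` to `ℝᵐ` with `k + m < n` the open set `U` contains
a nondegenerate continuum on which both `f` and `g` are constant.

For `m = 0` and `k = n - 1` this says: if the Jacobian of a map `f : Ω → ℝⁿ` vanishes almost everywhere,
then every nonempty open set contains a nondegenerate continuum on which `f` is constant.

New arguments: (i) the library proof uses that the coordinates of an injective map separate points; for a
light map we add the functions `κ · h(|f - f(x)|²)`, where `κ` is a cut-off function around a small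
clopen part of the fibre of `x` and `h` is a smooth function supported near `0`; they are weakly
differentiable by a chain rule for continuous Sobolev functions and are constant along every vector field
along which `f` is constant; (ii) the stacked map `(f, g)` has rank at most `k + m < n`.
-/

set_option autoImplicit false

open MeasureTheory Set Filter Topology Metric
open scoped ENNReal ContDiff

namespace Pool.Agent.Results.MP_941809_an.LightMaps

open Pool.Agent.Helper656.Sob (E)
open Pool.Agent.Results.MP_941809_an.RankOfEmbeddings (IsWBVLoc IsW2 IsWBV)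
open Pool.Agent.KS6_66.LM

/-- (1) Let `f : Ω → ℝ^d`, `g : Ω → ℝ^m`, `Ω ⊆ ℝ^n`, be continuous maps whose weak differentials are
locally of bounded variation (`IsWBVLoc`). If `U ⊆ Ω` is open and nonempty, `rank Df ≤ k` almost
everywhere on `U` and `k + m < n`, then `U` contains a compact connected set with more than one point on
which `f` and `g` are constant. (2) If `U ⊆ Ω` is open and nonempty and all fibres of `f` in `U` are
totally disconnected, then `Df` has rank `n` on a subset of `U` of positive measure. (3) The classes
`W^{2,q}(Ω, ℝ^d)`, `1 ≤ q ≤ ∞`, and `WBV(Ω, ℝ^d)` and the smooth maps are contained in the local class.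
(4) In particular a continuous map in `W^{2,q}(Ω, ℝⁿ)` or `WBV(Ω, ℝⁿ)` with totally disconnected fibres,
for example a homeomorphism or a discrete map, has nonzero Jacobian on a set of positive measure in every
nonempty open subset of `Ω`. -/
theorem result :
    (∀ (n d m k : ℕ) (Ω : Set (E n)) (f : E n → E d) (G : E n → Matrix (Fin d) (Fin n) ℝ)
      (g : E n → E m) (H : E n → Matrix (Fin m) (Fin n) ℝ),
      ContinuousOn f Ω → IsWBVLoc Ω f G → ContinuousOn g Ω → IsWBVLoc Ω g H → k + m < n →
      ∀ U : Set (E n), U ⊆ Ω → IsOpen U → U.Nonempty →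
        (∀ᵐ x ∂(volume.restrict U), (G x).rank ≤ k) →
        ∃ C : Set (E n), C ⊆ U ∧ IsCompact C ∧ IsConnected C ∧ C.Nontrivial ∧
          (∃ a, ∀ x ∈ C, f x = a) ∧ ∃ b, ∀ x ∈ C, g x = b) ∧
    (∀ (n d : ℕ) (Ω : Set (E n)) (f : E n → E d) (G : E n → Matrix (Fin d) (Fin n) ℝ),
      ContinuousOn f Ω → IsWBVLoc Ω f G →
      ∀ U : Set (E n), U ⊆ Ω → IsOpen U → U.Nonempty →
        (∀ a, IsTotallyDisconnected {x | x ∈ U ∧ f x = a}) →
        0 < volume {x | x ∈ U ∧ (G x).rank = n}) ∧
    (∀ (n d : ℕ) (Ω : Set (E n)) (f : E n → E d) (G : E n → Matrix (Fin d) (Fin n) ℝ),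
      (∀ (q : ℝ≥0∞) (H : Fin d → Fin n → Fin n → E n → ℝ), 1 ≤ q → IsW2 Ω q f G H →
        IsWBVLoc Ω f G) ∧
      (IsWBV Ω f G → IsWBVLoc Ω f G) ∧
      (ContDiff ℝ ∞ f → IsWBVLoc Ω f (jac f))) ∧
    ∀ (n : ℕ) (Ω : Set (E n)) (f : E n → E n) (G : E n → Matrix (Fin n) (Fin n) ℝ),
      ContinuousOn f Ω → (∀ a, IsTotallyDisconnected {x | x ∈ Ω ∧ f x = a}) →
      (∃ (q : ℝ≥0∞) (H : Fin n → Fin n → Fin n → E n → ℝ), 1 ≤ q ∧ IsW2 Ω q f G H) ∨
        IsWBV Ω f G →
      ∀ U : Set (E n), U ⊆ Ω → IsOpen U → U.Nonempty →
        0 < volume {x | x ∈ U ∧ (G x).det ≠ 0} := by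
  refine ⟨?_, ?_, ?_, ?_⟩
  · intro n d m k Ω f G g H hf hW hg hH hkm U hU hUo hUn hr
    exact exists_continuum hUo hUn (hf.mono hU) (hW.mono hU) hr hkm (hg.mono hU) (hH.mono hU)
  · intro n d Ω f G hf hW U hU hUo hUn hl
    exact rank_pos_light hUo hUn f (hf.mono hU) (light_of_fibres hl) G (hW.mono hU)
  · intro n d Ω f G
    exact ⟨fun q H hq h => h.loc hq, fun h => h.loc, fun h => smooth_class Ω h⟩
  · intro n Ω f G hf hl h U hU hUo hUn
    have hW : IsWBVLoc Ω f G := by
      rcases h with ⟨q, H, hq, h⟩ | h
      · exact h.loc hq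
      · exact h.loc
    have hl' : ∀ a, IsTotallyDisconnected {x | x ∈ U ∧ f x = a} := fun a t ht hp =>
      hl a t (fun x hx => ⟨hU (ht hx).1, (ht hx).2⟩) hp
    refine (rank_pos_light hUo hUn f (hf.mono hU) (light_of_fibres hl') G (hW.mono hU)).trans_le
      (measure_mono ?_)
    intro x hx
    exact ⟨hx.1, Pool.Agent.Results.MP_941809_an.RankOfEmbeddings.det_ne_of_rank _ hx.2⟩

end Pool.Agent.Results.MP_941809_an.LightMaps
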